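import Pool.Agent.Helper15.UL.GoalsA

/-! # MP_57a173_lc: packet FL (the limit of a fusion sequence) -/

set_option linter.unusedSectionVars false

noncomputable section

namespace UL

namespace PkFL

open Filter

variable {I : Type} [LinearOrder I]

theorem comps_add (χ : ℕ → Pt I → Pt I) (j m n : ℕ) :
    comps χ j (m + n) = comps χ j m ∘ comps χ (j + m) n := by
  induction n with
  | zero => rfl
  | succ n ih =>
    show comps χ j (m + n) ∘ χ (j + (m + n)) =
      comps χ j m ∘ (comps χ (j + m) n ∘ χ (j + m + n))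
    rw [ih, Function.comp_assoc, Nat.add_assoc]

theorem comps_pure {χ : ℕ → Pt I → Pt I} {q : ℕ → I → ℕ} (h : ∀ l, Pure (q l) (χ l))
    (hq : ∀ l ξ, q l ξ ≤ q (l + 1) ξ) (j n : ℕ) : Pure (q j) (comps χ j n) := by
  induction n with
  | zero => exact Pure.id' _
  | succ n ih =>
    exact ih.comp ((h (j + n)).mono fun ξ _ =>
      monotone_nat_of_le_succ (f := fun l => q l ξ) (fun l => hq l ξ) (Nat.le_add_right j n))

/-- representations of the products -/
def R (L : ℕ → I → Pt I → Str → Str) (χ : ℕ → Pt I → Pt I) (j : ℕ) :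
    ℕ → I → Pt I → Str → Str
  | 0 => fun _ _ σ => σ
  | n + 1 => fun ξ z σ => R L χ j n ξ (χ (j + n) z) (L (j + n) ξ z σ)

theorem R_rep {L : ℕ → I → Pt I → Str → Str} {χ : ℕ → Pt I → Pt I}
    (hL : ∀ l, IsRep (L l) (χ l)) (j n : ℕ) : IsRep (R L χ j n) (comps χ j n) := by
  induction n with
  | zero => exact IsRep.id'
  | succ n ih => exact ih.comp (hL (j + n))

theorem R_add {L : ℕ → I → Pt I → Str → Str} {χ : ℕ → Pt I → Pt I}
    (hL : ∀ l, IsRep (L l) (χ l)) (j m n : ℕ) (ξ : I) (z : Pt I) (σ : Str) :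
    R L χ j (m + n) ξ z σ =
      R L χ j m ξ (comps χ (j + m) n z) (R L χ (j + m) n ξ z σ) := by
  have h1 := R_rep hL j (m + n)
  rw [comps_add] at h1
  have h2 := (R_rep hL j m).comp (R_rep hL (j + m) n)
  rw [h1.uniq h2]

theorem fixed_rep {L : I → Pt I → Str → Str} {f : Pt I → Pt I} (h : IsRep L f) {ξ : I}
    (hξ : ∀ z, f z ξ = z ξ) (z : Pt I) (σ : Str) : L ξ z σ = σ := by
  have hM : MD {ξ}ᶜ f := ⟨⟨L, h⟩, fun z η hη => by
    have : η = ξ := by simpa using hη
    rw [this]; exact hξ z⟩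
  have h1 := h.lo {ξ}ᶜ
  rw [hM.lo_eq] at h1
  have h2 := h.uniq h1
  rw [h2]
  simp

theorem R_fixed {L : ℕ → I → Pt I → Str → Str} {χ : ℕ → Pt I → Pt I}
    (j n : ℕ) {ξ : I} (h : ∀ l z σ, L l ξ z σ = σ) (z : Pt I) (σ : Str) :
    R L χ j n ξ z σ = σ := by
  induction n generalizing z σ with
  | zero => rfl
  | succ n ih =>
    show R L χ j n ξ (χ (j + n) z) (L (j + n) ξ z σ) = σ
    rw [ih, h]

theorem lim_isL {Q : ℕ → Str → Str} {Λ : Str → Str} (h : ∀ n, IsL (Q n))
    (hl : ∀ σ, ∀ᶠ n in atTop, Q n σ = Λ σ) : IsL Λ := by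
  intro σ b
  obtain ⟨n, h1, h2⟩ := ((hl σ).and (hl (σ ++ [b]))).exists
  obtain ⟨j, hj⟩ := h n σ b
  exact ⟨j, by rw [← h1, ← h2, hj]⟩

theorem exists_y {Λ : Str → Str} (h : IsL Λ) (x : Y) : ∃ y : Y, ∀ n, Pre (Λ (res x n)) y := by
  obtain ⟨f, hf⟩ := exists_rep (I := Unit) (L := fun _ _ σ => Λ σ) (fun _ _ => h)
    (fun _ _ => LC.const _)
    ⟨Set.univ, Set.countable_univ, fun ξ hξ => absurd (Set.mem_univ ξ) hξ⟩
  exact ⟨f (fun _ => x) (), fun n => hf.pre (fun _ => x) () n⟩

/-- the key formula -/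
theorem key {L : ℕ → I → Pt I → Str → Str} {χ : ℕ → Pt I → Pt I} {q : ℕ → I → ℕ}
    (hL : ∀ l, IsRep (L l) (χ l)) (h : ∀ l, Pure (q l) (χ l))
    (hq : ∀ l ξ, q l ξ ≤ q (l + 1) ξ) {ξ : I} {σ : Str} {m : ℕ} (hm : σ.length + 1 < q m ξ)
    (j : ℕ) (z w : Pt I)
    (hw : ∀ η, η < ξ → ∀ i, ∀ᶠ n in atTop, comps χ (j + m) n z η i = w η i) :
    ∀ᶠ n in atTop, R L χ j n ξ z σ = R L χ j m ξ w σ := by
  obtain ⟨A, hA, -, h1⟩ := (R_rep hL j m).lc ξ σ
  obtain ⟨F, hF, k, hk⟩ := h1 w
  have h2 : ∀ᶠ n in atTop, ∀ η ∈ F, ∀ i ∈ Finset.range k,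
      comps χ (j + m) n z η i = w η i :=
    (Filter.eventually_all_finset F).2 fun η hη =>
      (Filter.eventually_all_finset _).2 fun i _ => hw η (hA (hF hη)) i
  obtain ⟨N, hN⟩ := eventually_atTop.1 h2
  refine eventually_atTop.2 ⟨m + N, fun n hn => ?_⟩
  obtain ⟨n', rfl⟩ : ∃ n', n = m + n' := ⟨n - m, by omega⟩
  rw [R_add hL]
  have h3 : R L χ (j + m) n' ξ z σ = σ := by
    refine (comps_pure h hq (j + m) n').rep_lt (R_rep hL (j + m) n') ?_
    have : q m ξ ≤ q (j + m) ξ :=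
      monotone_nat_of_le_succ (f := fun l => q l ξ) (fun l => hq l ξ) (Nat.le_add_left m j)
    omega
  rw [h3]
  exact hk _ fun η hη i hi => hN n' (by omega) η hη i (Finset.mem_range.2 hi)

/-- the limits at one coordinate -/
structure H (L : ℕ → I → Pt I → Str → Str) (χ : ℕ → Pt I → Pt I) (ξ : I) (j : ℕ) (z : Pt I)
    (Λ : Str → Str) (y : Y) : Prop where
  isL : IsL Λ
  limL : ∀ σ, ∀ᶠ n in atTop, R L χ j n ξ z σ = Λ σ
  lim : ∀ i, ∀ᶠ n in atTop, comps χ j n z ξ i = y i
  pre : ∀ n, Pre (Λ (res (z ξ) n)) y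

theorem H_of {L : ℕ → I → Pt I → Str → Str} {χ : ℕ → Pt I → Pt I}
    (hL : ∀ l, IsRep (L l) (χ l)) {ξ : I} {j : ℕ} {z : Pt I}
    (h : ∀ σ, ∃ ρ, ∀ᶠ n in atTop, R L χ j n ξ z σ = ρ) : ∃ Λ y, H L χ ξ j z Λ y := by
  choose Λ hΛ using h
  have h1 : IsL Λ := lim_isL (fun n => (R_rep hL j n).isL ξ z) hΛ
  obtain ⟨y, hy⟩ := exists_y h1 (z ξ)
  refine ⟨Λ, y, h1, hΛ, fun i => ?_, hy⟩
  filter_upwards [hΛ (res (z ξ) (i + 1))] with n hn
  have h2 := (R_rep hL j n).pre z ξ (i + 1)
  rw [hn] at h2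
  have h3 := h1.length_le (res (z ξ) (i + 1))
  rw [res_length] at h3
  rw [← h2 i (by omega), ← hy (i + 1) i (by omega)]

theorem claim [WellFoundedLT I] {L : ℕ → I → Pt I → Str → Str} {χ : ℕ → Pt I → Pt I}
    {q : ℕ → I → ℕ} (hL : ∀ l, IsRep (L l) (χ l)) (h : ∀ l, Pure (q l) (χ l))
    (hq : ∀ l ξ, q l ξ ≤ q (l + 1) ξ)
    (hmv : ∀ l z ξ, χ l z ξ ≠ z ξ → ∀ n, ∃ m, n ≤ q m ξ) (ξ : I) :
    ∀ j z, ∃ Λ y, H L χ ξ j z Λ y := by
  induction ξ using WellFoundedLT.induction with
  | ind ξ ih =>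
    intro j z
    apply H_of hL
    intro σ
    by_cases hx : ∃ l z, χ l z ξ ≠ z ξ
    · obtain ⟨l, z', hz'⟩ := hx
      obtain ⟨m, hm⟩ := hmv l z' ξ hz' (σ.length + 2)
      classical
      choose Λ' y' h' using fun (η : I) (hη : η < ξ) => ih η hη (j + m) z
      refine ⟨_, key hL h hq (m := m) (by omega) j z
        (fun η => if hη : η < ξ then y' η hη else z η) ?_⟩
      intro η hη i
      have := (h' η hη).lim i
      simp only [hη, dif_pos]
      exact this
    · push Not at hx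
      refine ⟨σ, Eventually.of_forall fun n => ?_⟩
      exact R_fixed j n (fun l z σ => fixed_rep (hL l) (hx l) z σ) z σ

theorem thm : G_FL := by
  intro I _ _ χ q h hq hmv
  choose L hL using fun l => (h l).isM
  choose Λ y hH using claim hL h hq hmv
  -- the limit maps
  let ψ : ℕ → Pt I → Pt I := fun j z ξ => y ξ j z
  -- local constancy
  have hlc : ∀ ξ j σ, LC (Set.Iio ξ) (fun z => Λ ξ j z σ) := by
    intro ξ
    induction ξ using WellFoundedLT.induction with
    | ind ξ ih =>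
      intro j σ
      by_cases hx : ∃ l z, χ l z ξ ≠ z ξ
      · obtain ⟨l, z', hz'⟩ := hx
        obtain ⟨m, hm⟩ := hmv l z' ξ hz' (σ.length + 2)
        have e : ∀ z, Λ ξ j z σ = R L χ j m ξ (ψ (j + m) z) σ := by
          intro z
          have h1 := key hL h hq (ξ := ξ) (σ := σ) (m := m) (by omega) j z (ψ (j + m) z)
            (fun η _ i => (hH η (j + m) z).lim i)
          obtain ⟨n, h2, h3⟩ := (h1.and ((hH ξ j z).limL σ)).exists
          rw [← h2, ← h3]
        classical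
        have hM : IsM (lo (Set.Iio ξ) (ψ (j + m))) := by
          refine ⟨fun η z σ => if η < ξ then Λ η (j + m) z σ else σ, ?_, ?_, ?_, ?_⟩
          · intro η z
            by_cases hη : η < ξ
            · simp only [hη, if_true]
              exact (hH η (j + m) z).isL
            · simp only [hη, if_false]
              exact IsL.id
          · intro η σ
            by_cases hη : η < ξ
            · simp only [hη, if_true]
              exact ih η hη (j + m) σ
            · simp only [hη, if_false]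
              exact LC.const _
          · choose A hA hA' using fun l => (hL l).sup
            refine ⟨⋃ l, A l, Set.countable_iUnion hA, fun η hη z σ => ?_⟩
            by_cases hη' : η < ξ
            · simp only [hη', if_true]
              obtain ⟨n, hn⟩ := ((hH η (j + m) z).limL σ).exists
              rw [← hn]
              exact R_fixed _ n (fun l z σ => hA' l η
                (fun hc => hη (Set.mem_iUnion.2 ⟨l, hc⟩)) z σ) z σ
            · simp only [hη', if_false]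
          · intro z η n
            by_cases hη : η < ξ
            · simp only [hη, if_true]
              rw [lo_in (show η ∈ Set.Iio ξ from hη)]
              exact (hH η (j + m) z).pre n
            · simp only [hη, if_false]
              rw [lo_out (show η ∉ Set.Iio ξ from hη)]
              exact pre_res _ _
        have h4 : LC (Set.Iio ξ) (fun z => R L χ j m ξ (lo (Set.Iio ξ) (ψ (j + m)) z) σ) :=
          LC.comp (isLowerSet_Iio ξ) (k := fun z => R L χ j m ξ z σ)
            ((R_rep hL j m).lc ξ σ) hM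
        have e2 : (fun z => Λ ξ j z σ) =
            fun z => R L χ j m ξ (lo (Set.Iio ξ) (ψ (j + m)) z) σ := by
          funext z
          rw [e z]
          exact ((R_rep hL j m).lc ξ σ).dep fun η hη => (lo_in hη).symm
        rw [e2]
        exact h4
      · push Not at hx
        have e2 : (fun z => Λ ξ j z σ) = fun _ => σ := by
          funext z
          obtain ⟨n, hn⟩ := ((hH ξ j z).limL σ).exists
          rw [← hn]
          exact R_fixed j n (fun l z σ => fixed_rep (hL l) (hx l) z σ) z σ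
        rw [e2]
        exact LC.const _
  have hrep : ∀ j, IsRep (fun ξ z σ => Λ ξ j z σ) (ψ j) := by
    intro j
    refine ⟨fun ξ z => (hH ξ j z).isL, fun ξ σ => hlc ξ j σ, ?_, fun z ξ n => (hH ξ j z).pre n⟩
    choose A hA hA' using fun l => (hL l).sup
    refine ⟨⋃ l, A l, Set.countable_iUnion hA, fun η hη z σ => ?_⟩
    obtain ⟨n, hn⟩ := ((hH η j z).limL σ).exists
    rw [← hn]
    exact R_fixed _ n (fun l z σ => hA' l η
      (fun hc => hη (Set.mem_iUnion.2 ⟨l, hc⟩)) z σ) z σ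
  refine ⟨ψ, fun j => ⟨?_, ?_, ?_⟩⟩
  · refine ⟨_, hrep j, fun ξ z σ hσ => ?_⟩
    obtain ⟨n, hn⟩ := ((hH ξ j z).limL σ).exists
    show ∃ k, Λ ξ j z σ = σ ++ zs k
    rw [← hn]
    exact (comps_pure h hq j n).rep (R_rep hL j n) hσ
  · funext z ξ
    apply Y.ext
    intro i
    obtain ⟨A, -, h1⟩ := ((h j).isM).cont
    obtain ⟨F', n', -, h2⟩ := h1 {ξ} (i + 1) (ψ (j + 1) z)
    have h3 : ∀ᶠ n in atTop, ∀ η ∈ F', ∀ i ∈ Finset.range n',
        comps χ (j + 1) n z η i = ψ (j + 1) z η i :=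
      (Filter.eventually_all_finset F').2 fun η _ =>
        (Filter.eventually_all_finset _).2 fun i _ => (hH η (j + 1) z).lim i
    have h4 : ∀ᶠ n in atTop, comps χ j (n + 1) z ξ i = ψ j z ξ i :=
      (tendsto_add_atTop_nat 1).eventually ((hH ξ j z).lim i)
    obtain ⟨n, h5, h6⟩ := (h3.and h4).exists
    have h7 := h2 (comps χ (j + 1) n z)
      (fun η hη i hi => h5 η hη i (Finset.mem_range.2 hi)) ξ (by simp) i (by omega)
    have h8 : comps χ j (n + 1) z = χ j (comps χ (j + 1) n z) := by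
      rw [Nat.add_comm n 1, comps_add]
      rfl
    rw [h8] at h6
    rw [← h6, h7]
    rfl
  · intro z ξ i
    exact eventually_atTop.1 ((hH ξ j z).lim i)

end PkFL

end UL
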