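import Pool.Agent.Helper15.UL.GoalsA

/-! # MP_57a173_lc: packet LOC (localization of a map to a cell) -/

set_option linter.unusedSectionVars false

noncomputable section

namespace UL

namespace PkLOC

variable {I : Type} [LinearOrder I]

theorem rep_eq {L : I → Pt I → Str → Str} {f g : Pt I → Pt I} (hf : IsRep L f)
    (hg : IsRep L g) : f = g := by
  funext z ξ
  apply Y.ext
  intro i
  rw [hf.val z ξ i, hg.val z ξ i]

theorem LC_strip {D : Set I} {β : Type} {k : Pt I → β} (hk : LC D k) (τ : I → Str) :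
    LC D (fun z => k (strip τ z)) := by
  obtain ⟨A, hA, hc, h⟩ := hk
  refine ⟨A, hA, hc, fun z => ?_⟩
  obtain ⟨F, hF, n, hn⟩ := h (strip τ z)
  refine ⟨F, hF, n + F.sup (fun ξ => (τ ξ).length), fun z' hz' => hn _ ?_⟩
  intro ξ hξ i hi
  show dropY (τ ξ).length (z' ξ) i = dropY (τ ξ).length (z ξ) i
  rw [dropY_coe, dropY_coe]
  have h1 : (τ ξ).length ≤ F.sup (fun ξ => (τ ξ).length) :=
    Finset.le_sup (f := fun ξ => (τ ξ).length) hξ
  exact hz' ξ hξ _ (by omega)

/-- being good below `ξ` is locally constant -/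
theorem LC_good {τ : I → Str} (hτ : (Sp τ).Finite) (ξ : I) :
    LC (Set.Iio ξ) (fun z : Pt I => ∀ η, η < ξ → Pre (τ η) (z η)) := by
  classical
  refine ⟨Sp τ ∩ Set.Iio ξ, Set.inter_subset_right,
    hτ.countable.mono Set.inter_subset_left, fun z => ?_⟩
  refine ⟨(hτ.inter_of_left (Set.Iio ξ)).toFinset, by simp,
    hτ.toFinset.sup (fun ξ => (τ ξ).length), fun z' hz' => ?_⟩
  apply propext
  refine forall_congr' fun η => forall_congr' fun hη => ?_
  by_cases h : η ∈ Sp τ
  · refine forall_congr' fun i => forall_congr' fun hi => ?_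
    have h1 : (τ η).length ≤ hτ.toFinset.sup (fun ξ => (τ ξ).length) :=
      Finset.le_sup (f := fun ξ => (τ ξ).length) (by simpa using h)
    rw [hz' η (by simp only [Set.Finite.mem_toFinset]; exact ⟨h, hη⟩) i (by omega)]
  · have h2 : τ η = [] := by
      by_contra hc
      exact h hc
    rw [h2]
    exact ⟨fun _ => pre_nil _, fun _ => pre_nil _⟩

open Classical in
/-- the localized representation -/
def LL (τ : I → Str) (L : I → Pt I → Str → Str) : I → Pt I → Str → Str := fun ξ z σ =>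
  if (∀ η, η < ξ → Pre (τ η) (z η)) ∧ τ ξ <+: σ then
    τ ξ ++ L ξ (strip τ z) (σ.drop (τ ξ).length) else σ

theorem LL_pos {τ : I → Str} {L : I → Pt I → Str → Str} {ξ : I} {z : Pt I} {σ : Str}
    (h : ∀ η, η < ξ → Pre (τ η) (z η)) (h' : τ ξ <+: σ) :
    LL τ L ξ z σ = τ ξ ++ L ξ (strip τ z) (σ.drop (τ ξ).length) := by
  unfold LL
  rw [if_pos ⟨h, h'⟩]

theorem LL_neg {τ : I → Str} {L : I → Pt I → Str → Str} {ξ : I} {z : Pt I} {σ : Str}
    (h : ¬ ((∀ η, η < ξ → Pre (τ η) (z η)) ∧ τ ξ <+: σ)) :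
    LL τ L ξ z σ = σ := by
  unfold LL
  rw [if_neg h]

theorem thm : G_LOC := by
  intro I _ D p q τ χ hD hq hqD hpq hτ hχ
  obtain ⟨L', hL'⟩ := hχ.isM
  have hS : (Sp τ).Finite := Cell.fin_Sp hq hτ
  have hnil : ∀ ξ, q ξ = 0 → τ ξ = [] := fun ξ h => by
    have := hτ ξ
    rw [h] at this
    exact List.length_eq_zero_iff.1 this
  have hne : ∀ ξ, τ ξ ≠ [] → q ξ ≠ 0 := fun ξ h hc => h (hnil ξ hc)
  have h0 : ∀ ξ z, q ξ ≠ 0 → ∃ j, L' ξ z [] = zs j := by
    intro ξ z h
    obtain ⟨j, hj⟩ := hχ.rep hL' (ξ := ξ) (z := z) (σ := []) (by rw [hpq ξ h]; rfl)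
    exact ⟨j, by simpa using hj⟩
  have h1 : ∀ ξ z, IsL (LL τ L' ξ z) := by
    intro ξ z σ b
    by_cases hg : ∀ η, η < ξ → Pre (τ η) (z η)
    · by_cases hp : τ ξ <+: σ
      · have hp' : τ ξ <+: σ ++ [b] := hp.trans (List.prefix_append _ _)
        rw [LL_pos hg hp, LL_pos hg hp']
        obtain ⟨j, hj⟩ := hL'.isL ξ (strip τ z) (σ.drop (τ ξ).length) b
        refine ⟨j, ?_⟩
        rw [List.drop_append_of_le_length hp.length_le, hj]
        simp
      · by_cases hp' : τ ξ <+: σ ++ [b]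
        · have he : τ ξ = σ ++ [b] := by
            rcases List.prefix_concat_iff.1 (by simpa using hp') with h | h
            · simpa using h
            · exact absurd h hp
          have hq0 : q ξ ≠ 0 := hne ξ (by rw [he]; simp)
          obtain ⟨j, hj⟩ := h0 ξ (strip τ z) hq0
          refine ⟨j, ?_⟩
          rw [LL_pos hg hp', LL_neg (fun h => hp h.2), he, List.drop_length, hj]
          simp
        · refine ⟨0, ?_⟩
          rw [LL_neg (fun h => hp h.2), LL_neg (fun h => hp' h.2)]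
          simp [zs]
    · refine ⟨0, ?_⟩
      rw [LL_neg (fun h => hg h.1), LL_neg (fun h => hg h.1)]
      simp [zs]
  have h2 : ∀ ξ σ, LC (Set.Iio ξ) (fun z => LL τ L' ξ z σ) := by
    intro ξ σ
    by_cases hp : τ ξ <+: σ
    · classical
      have e : (fun z => LL τ L' ξ z σ) = fun z =>
          (fun (P : Prop) (s : Str) => if P then τ ξ ++ s else σ)
            (∀ η, η < ξ → Pre (τ η) (z η)) (L' ξ (strip τ z) (σ.drop (τ ξ).length)) := by
        funext z
        by_cases hg : ∀ η, η < ξ → Pre (τ η) (z η)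
        · rw [LL_pos hg hp]
          simp only [if_pos hg]
        · rw [LL_neg (fun h => hg h.1)]
          simp only [if_neg hg]
      rw [e]
      have k1 : LC (Set.Iio ξ) (fun z => L' ξ (strip τ z) (σ.drop (τ ξ).length)) :=
        LC_strip (k := fun z => L' ξ z (σ.drop (τ ξ).length)) (hL'.lc ξ _) τ
      exact (LC_good hS ξ).map₂ k1 (fun (P : Prop) (s : Str) => if P then τ ξ ++ s else σ)
    · have e : (fun z => LL τ L' ξ z σ) = fun _ => σ := by
        funext z
        rw [LL_neg (fun h => hp h.2)]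
      rw [e]
      exact LC.const _
  have h3 : ∃ A : Set I, A.Countable ∧ ∀ ξ, ξ ∉ A → ∀ z σ, LL τ L' ξ z σ = σ := by
    obtain ⟨A, hA, hA'⟩ := hL'.sup
    refine ⟨A ∪ Sp τ, hA.union hS.countable, fun ξ hξ z σ => ?_⟩
    have ht : τ ξ = [] := by
      by_contra hc
      exact hξ (Or.inr hc)
    have hp : τ ξ <+: σ := by rw [ht]; exact List.nil_prefix
    by_cases hg : ∀ η, η < ξ → Pre (τ η) (z η)
    · rw [LL_pos hg hp, ht, hA' ξ (fun h => hξ (Or.inl h))]
      simp
    · rw [LL_neg (fun h => hg h.1)]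
  obtain ⟨χ', hχ'⟩ := exists_rep h1 h2 h3
  refine ⟨χ', ?_, ?_, ?_, ?_⟩
  · have r1 := hχ'.comp (J_rep hS.countable)
    have r2 := (J_rep hS.countable).comp hL'
    have e : (fun ξ z σ => LL τ L' ξ (J τ z) (τ ξ ++ σ)) = fun ξ z σ => τ ξ ++ L' ξ z σ := by
      funext ξ z σ
      rw [LL_pos (fun η _ => J_mem_B τ z η) (List.prefix_append _ _), strip_J,
        List.drop_left]
    rw [e] at r1
    exact rep_eq r1 r2
  · funext z ξ
    by_cases hξ : ξ ∈ D
    · rw [lo_in hξ, lo_in hξ]
      apply Y.ext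
      intro i
      rw [hχ'.val z ξ i, hL'.val z ξ i]
      have hτη : ∀ η, η ≤ ξ → τ η = [] := fun η hη => hnil η (hqD η (hD hη hξ))
      have e : LL τ L' ξ z (res (z ξ) (i + 1)) = L' ξ z (res (z ξ) (i + 1)) := by
        rw [LL_pos (fun η hη => by rw [hτη η hη.le]; exact pre_nil _)
          (by rw [hτη ξ le_rfl]; exact List.nil_prefix), hτη ξ le_rfl]
        have : L' ξ (strip τ z) = L' ξ z := hL'.depL fun η hη => by
          show dropY (τ η).length (z η) = z η
          rw [hτη η hη.le]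
          exact dropY_zero _
        rw [this]
        simp
      simp only [e]
    · rw [lo_out hξ, lo_out hξ]
  · refine ⟨_, hχ', fun ξ z σ hσ => ?_⟩
    have hσ' : σ.length + 1 = if q ξ = 0 then p ξ else q ξ := hσ
    clear hσ
    rename' hσ' => hσ
    by_cases hq0 : q ξ = 0
    · rw [if_pos hq0] at hσ
      have ht := hnil ξ hq0
      by_cases hg : ∀ η, η < ξ → Pre (τ η) (z η)
      · rw [LL_pos hg (by rw [ht]; exact List.nil_prefix), ht]
        obtain ⟨j, hj⟩ := hχ.rep hL' (ξ := ξ) (z := strip τ z) hσ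
        exact ⟨j, by simpa using hj⟩
      · rw [LL_neg (fun h => hg h.1)]
        exact ⟨0, by simp [zs]⟩
    · rw [if_neg hq0] at hσ
      by_cases hc : (∀ η, η < ξ → Pre (τ η) (z η)) ∧ τ ξ <+: σ
      · have hl : (τ ξ).length = σ.length := by
          have := hτ ξ
          omega
        have he : τ ξ = σ := hc.2.eq_of_length hl
        rw [LL_pos hc.1 hc.2, he, List.drop_length]
        obtain ⟨j, hj⟩ := h0 ξ (strip τ z) hq0
        exact ⟨j, by rw [hj]⟩
      · rw [LL_neg hc]
        exact ⟨0, by simp [zs]⟩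
  · intro z η hη ξ hηξ _
    have key : ∀ n, LL τ L' ξ z (res (z ξ) n) = res (z ξ) n := by
      intro n
      apply LL_neg
      rintro ⟨hg, hp⟩
      rcases hηξ.eq_or_lt with h | h
      · rw [h] at hη
        exact hη ((pre_res (z ξ) n).mono hp)
      · exact hη (hg η h)
    apply Y.ext
    intro i
    have h4 := hχ'.pre z ξ (i + 1)
    rw [key] at h4
    have h5 := h4 i (by simp)
    rw [res_get] at h5
    exact h5.symm

end PkLOC

end UL
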